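import Mathlib
import Pool.Agent.Helper11.PC.Defs

/-! # Packet PC ORD: the bi-invariant order given by a Magnus system -/

namespace Pool.Agent.Helper5.PC

universe u v

open Pool.Agent.Helper11.PC

theorem mul_left_diff {X : Type v} {Γ : Type u} [Group Γ] {P : ℕ → Prop} {c : Γ → List X → ℚ}
    (h : MagnusSys X P Γ c) {a b : Γ} (x : Γ) (w : List X) (hP : P w.length)
    (hw : ∀ w' : List X, w'.length < w.length → c a w' = c b w') :
    c (x * a) w - c (x * b) w = c a w - c b w := by
  rw [h.mul x a w hP, h.mul x b w hP, ← Finset.sum_sub_distrib, Finset.sum_range_succ']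
  rw [Finset.sum_eq_zero]
  · simp only [List.take_zero, List.drop_zero, h.nil]
    ring
  · intro i hi
    have hi' : i < w.length := Finset.mem_range.mp hi
    have hlen : (w.drop (i + 1)).length < w.length := by
      rw [List.length_drop]; omega
    rw [hw _ hlen]
    ring

theorem mul_right_diff {X : Type v} {Γ : Type u} [Group Γ] {P : ℕ → Prop} {c : Γ → List X → ℚ}
    (h : MagnusSys X P Γ c) {a b : Γ} (x : Γ) (w : List X) (hP : P w.length)
    (hw : ∀ w' : List X, w'.length < w.length → c a w' = c b w') :
    c (a * x) w - c (b * x) w = c a w - c b w := by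
  rw [h.mul a x w hP, h.mul b x w hP, ← Finset.sum_sub_distrib, Finset.sum_range_succ]
  rw [Finset.sum_eq_zero]
  · simp only [List.take_length, List.drop_length, h.nil]
    ring
  · intro i hi
    have hi' : i < w.length := Finset.mem_range.mp hi
    have hlen : (w.take i).length < w.length := by
      rw [List.length_take]; omega
    rw [hw _ hlen]
    ring

theorem shortlex_length {X : Type v} {r : X → X → Prop} {s t : List X}
    (h : List.Shortlex r s t) : s.length ≤ t.length := by
  rcases List.shortlex_def.mp h with h | h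
  · exact h.le
  · exact h.1.le

theorem shortlex_trans {X : Type v} {r : X → X → Prop} [IsWellOrder X r] {s t w : List X}
    (h₁ : List.Shortlex r s t) (h₂ : List.Shortlex r t w) : List.Shortlex r s w := by
  have hwf : WellFounded (List.Shortlex r) := List.Shortlex.wf (IsWellFounded.wf)
  by_contra hc
  rcases trichotomous_of (List.Shortlex r) s w with h | h | h
  · exact hc h
  · subst h
    exact asymm_of (List.Shortlex r) h₁ h₂
  · -- a cycle of length three
    obtain ⟨m, hm, hmin⟩ := hwf.has_min {s, t, w} ⟨s, by simp⟩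
    rcases hm with rfl | rfl | rfl
    · exact hmin w (by simp) h
    · exact hmin s (by simp) h₁
    · exact hmin t (by simp) h₂

theorem ord {X : Type v} {Γ : Type u} [Group Γ] {P : ℕ → Prop} {c : Γ → List X → ℚ}
    (h : MagnusSys X P Γ c) (r : X → X → Prop) [IsWellOrder X r] :
    ∃ o : LinearOrder Γ, (∀ a b x : Γ, o.lt a b → o.lt (x * a) (x * b)) ∧
      (∀ a b x : Γ, o.lt a b → o.lt (a * x) (b * x)) ∧
      (∀ a b : Γ, o.lt a b ↔ ∃ v, P v.length ∧
        (∀ v', List.Shortlex r v' v → c a v' = c b v') ∧ c a v < c b v) := by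
  classical
  have hwf : WellFounded (List.Shortlex r) := List.Shortlex.wf (IsWellFounded.wf)
  let L : Γ → Γ → Prop := fun a b => ∃ v, P v.length ∧
        (∀ v', List.Shortlex r v' v → c a v' = c b v') ∧ c a v < c b v
  have htri : ∀ a b : Γ, a ≠ b → L a b ∨ L b a := by
    intro a b hab
    have hex : ∃ w : List X, P w.length ∧ c a w ≠ c b w := by
      by_contra hc
      push Not at hc
      exact hab (h.sep a b hc)
    obtain ⟨w, ⟨hPw, hne⟩, hmin⟩ := hwf.has_min {w : List X | P w.length ∧ c a w ≠ c b w} hex
    have heq : ∀ v', List.Shortlex r v' w → c a v' = c b v' := by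
      intro v' hv'
      by_contra hc
      exact hmin v' ⟨h.down _ _ (shortlex_length hv') hPw, hc⟩ hv'
    rcases lt_or_gt_of_ne hne with hlt | hlt
    · exact Or.inl ⟨w, hPw, heq, hlt⟩
    · exact Or.inr ⟨w, hPw, fun v' hv' => (heq v' hv').symm, hlt⟩
  have hirr : ∀ a : Γ, ¬ L a a := by
    rintro a ⟨w, -, -, hlt⟩
    exact lt_irrefl _ hlt
  have htrans : ∀ a b d : Γ, L a b → L b d → L a d := by
    rintro a b d ⟨w, hPw, hw, hwlt⟩ ⟨w', hPw', hw', hwlt'⟩
    rcases trichotomous_of (List.Shortlex r) w w' with hs | hs | hs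
    · refine ⟨w, hPw, fun u hu => ?_, ?_⟩
      · rw [hw u hu, hw' u (shortlex_trans hu hs)]
      · rw [← hw' w hs]; exact hwlt
    · subst hs
      exact ⟨w, hPw, fun u hu => by rw [hw u hu, hw' u hu], hwlt.trans hwlt'⟩
    · refine ⟨w', hPw', fun u hu => ?_, ?_⟩
      · rw [hw u (shortlex_trans hu hs), hw' u hu]
      · rw [hw w' hs]; exact hwlt'
  have hsto : IsStrictTotalOrder Γ L :=
    { trichotomous := fun a b hab hba => by
        by_contra hne
        rcases htri a b hne with h1 | h1
        · exact hab h1
        · exact hba h1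
      irrefl := hirr
      trans := htrans }
  refine ⟨linearOrderOfSTO L, ?_, ?_, ?_⟩
  · rintro a b x ⟨w, hPw, hw, hlt⟩
    have hshort : ∀ u : List X, u.length ≤ w.length → ∀ u' : List X, u'.length < u.length →
        c a u' = c b u' := fun u hu u' hu' =>
      hw u' (List.Shortlex.of_length_lt (lt_of_lt_of_le hu' hu))
    refine ⟨w, hPw, fun u hu => ?_, ?_⟩
    · have hlen := shortlex_length hu
      have := mul_left_diff h (a := a) (b := b) x u (h.down _ _ hlen hPw) (hshort u hlen)
      have h2 := hw u hu
      linarith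
    · have := mul_left_diff h (a := a) (b := b) x w hPw (hshort w le_rfl)
      linarith
  · rintro a b x ⟨w, hPw, hw, hlt⟩
    have hshort : ∀ u : List X, u.length ≤ w.length → ∀ u' : List X, u'.length < u.length →
        c a u' = c b u' := fun u hu u' hu' =>
      hw u' (List.Shortlex.of_length_lt (lt_of_lt_of_le hu' hu))
    refine ⟨w, hPw, fun u hu => ?_, ?_⟩
    · have hlen := shortlex_length hu
      have := mul_right_diff h (a := a) (b := b) x u (h.down _ _ hlen hPw) (hshort u hlen)
      have h2 := hw u hu
      linarith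
    · have := mul_right_diff h (a := a) (b := b) x w hPw (hshort w le_rfl)
      linarith
  · intro a b
    exact Iff.rfl

end Pool.Agent.Helper5.PC
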